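import Pool.Agent.H949.PM.Stmts2

/-!
# Ottaviani's inequality for Brownian motion (helper828, for helper949)
-/

set_option autoImplicit false

namespace Pool.Agent.H949.PM

open MeasureTheory ProbabilityTheory Set Filter Topology
open scoped ENNReal NNReal

namespace BMax

/-- the fourth moment of a Gaussian variable -/
theorem fourth (v : ℝ≥0) : ∫ x, x ^ 4 ∂(gaussianReal 0 v) = 3 * (v : ℝ) ^ 2 := by
  have h1 : iteratedDeriv 4 (mgf (fun x => x) (gaussianReal 0 v)) 0 =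
      ∫ x, x ^ 4 ∂(gaussianReal 0 v) := by
    rw [iteratedDeriv_mgf_zero] <;> simp
  rw [← h1, mgf_fun_id_gaussianReal]
  simp only [zero_mul, zero_add]
  obtain ⟨g, hg⟩ : ∃ g : ℝ → ℝ, g = fun t => Real.exp (v * t ^ 2 / 2) := ⟨_, rfl⟩
  rw [← hg]
  have hd : ∀ t, HasDerivAt g (v * t * g t) t := by
    intro t
    rw [hg]
    have h2 : HasDerivAt (fun t : ℝ => (v : ℝ) * t ^ 2 / 2) (v * t) t := by
      have h3 := ((hasDerivAt_pow 2 t).const_mul (v : ℝ)).div_const 2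
      have h4 : (v : ℝ) * ((2 : ℕ) * t ^ (2 - 1)) / 2 = v * t := by
        push_cast
        ring
      rw [h4] at h3
      exact h3
    have h5 := h2.exp
    have h6 : Real.exp (v * t ^ 2 / 2) * (v * t) = v * t * Real.exp (v * t ^ 2 / 2) := by ring
    rw [h6] at h5
    exact h5
  have hp : ∀ p p' : ℝ → ℝ, (∀ t, HasDerivAt p (p' t) t) →
      deriv (fun t => p t * g t) = fun t => (p' t + p t * (v * t)) * g t := by
    intro p p' h
    funext t
    have h7 : deriv (fun t => p t * g t) t = p' t * g t + p t * (v * t * g t) :=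
      ((h t).mul (hd t)).deriv
    rw [h7]
    ring
  have d1 : deriv g = fun t => (v * t) * g t := by
    funext t
    rw [(hd t).deriv]
  have d2 := hp (fun t => v * t) (fun _ => v) (fun t => by
    have := (hasDerivAt_id t).const_mul (v : ℝ)
    rw [mul_one] at this
    exact this)
  have d3 := hp (fun t => v + v * t * (v * t)) (fun t => 2 * v ^ 2 * t) (fun t => by
    have h3 := ((hasDerivAt_pow 2 t).const_mul ((v : ℝ) ^ 2)).const_add (v : ℝ)
    have h4 : (v : ℝ) ^ 2 * ((2 : ℕ) * t ^ (2 - 1)) = 2 * v ^ 2 * t := by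
      push_cast
      ring
    rw [h4] at h3
    have h5 : (fun t : ℝ => (v : ℝ) + v * t * (v * t)) = fun t : ℝ => (v : ℝ) + v ^ 2 * t ^ 2 := by
      funext t; ring
    rw [h5]
    exact h3)
  have d4 := hp (fun t => 2 * v ^ 2 * t + (v + v * t * (v * t)) * (v * t))
    (fun t => 3 * v ^ 2 + 3 * v ^ 3 * t ^ 2) (fun t => by
    have h3 := ((hasDerivAt_id t).const_mul (3 * (v : ℝ) ^ 2)).add
      ((hasDerivAt_pow 3 t).const_mul ((v : ℝ) ^ 3))
    have h4 : 3 * (v : ℝ) ^ 2 * 1 + (v : ℝ) ^ 3 * ((3 : ℕ) * t ^ (3 - 1)) =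
        3 * v ^ 2 + 3 * v ^ 3 * t ^ 2 := by
      push_cast
      ring
    rw [h4] at h3
    have h5 : (fun t : ℝ => 2 * (v : ℝ) ^ 2 * t + (v + v * t * (v * t)) * (v * t)) =
        (fun t : ℝ => 3 * (v : ℝ) ^ 2 * id t) + fun t : ℝ => (v : ℝ) ^ 3 * t ^ 3 := by
      funext t
      simp only [Pi.add_apply, id]
      ring
    rw [h5]
    exact h3)
  rw [iteratedDeriv_succ, iteratedDeriv_succ, iteratedDeriv_succ, iteratedDeriv_one, d1, d2, d3, d4]
  have hg0 : g 0 = 1 := by rw [hg]; simp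
  simp only [hg0]
  ring

theorem int4 (v : ℝ≥0) : Integrable (fun x : ℝ => x ^ 4) (gaussianReal 0 v) := by
  have h := (memLp_id_gaussianReal (μ := 0) (v := v) 4).integrable_norm_pow (p := 4) (by norm_num)
  refine h.congr (ae_of_all _ fun x => ?_)
  simp only [id, Real.norm_eq_abs]
  rw [Even.pow_abs (by decide)]

theorem tail {Ω : Type} [MeasurableSpace Ω] {P : Measure Ω} [IsProbabilityMeasure P] {X : Ω → ℝ}
    {v : ℝ≥0} (hX : HasLaw X (gaussianReal 0 v) P) {y : ℝ} (hy : 0 < y) :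
    P {ω | y ≤ |X ω|} ≤ ENNReal.ofReal (3 * v ^ 2 / y ^ 4) := by
  have h1 : ∫ ω, (X ω) ^ 4 ∂P = 3 * (v : ℝ) ^ 2 := by
    rw [← fourth v, ← hX.map_eq, integral_map hX.aemeasurable (by fun_prop)]
  have h2 : Integrable (fun ω => (X ω) ^ 4) P := by
    have h3 := int4 v
    rw [← hX.map_eq] at h3
    exact h3.comp_aemeasurable hX.aemeasurable
  have h3 := mul_meas_ge_le_integral_of_nonneg (μ := P) (f := fun ω => (X ω) ^ 4)
    (ae_of_all _ fun ω => by positivity) h2 (y ^ 4)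
  rw [h1] at h3
  have h4 : {ω | y ≤ |X ω|} ⊆ {ω | y ^ 4 ≤ (X ω) ^ 4} := by
    intro ω hω
    have h5 : y ^ 4 ≤ |X ω| ^ 4 := pow_le_pow_left₀ hy.le hω 4
    rw [Even.pow_abs (by decide)] at h5
    exact h5
  refine (measure_mono h4).trans ?_
  rw [← ofReal_measureReal]
  apply ENNReal.ofReal_le_ofReal
  rw [le_div_iff₀ (by positivity)]
  linarith

variable {Ω : Type} [MeasurableSpace Ω] {P : Measure Ω} [IsProbabilityMeasure P]
  {B : ℝ≥0 → Ω → ℝ}

/-- the event that `q` is the first time -/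
def A (B : ℝ≥0 → Ω → ℝ) (F : Finset ℝ≥0) (y : ℝ) (q : ℝ≥0) : Set Ω :=
  {ω | 2 * y ≤ |B q ω| ∧ ∀ r ∈ F, r < q → |B r ω| < 2 * y}

theorem meas_A (hBm : ∀ t, Measurable (B t)) (F : Finset ℝ≥0) (y : ℝ) (q : ℝ≥0) :
    MeasurableSet (A B F y q) := by
  have h : A B F y q = {ω | 2 * y ≤ |B q ω|} ∩ ⋂ r ∈ F, {ω | r < q → |B r ω| < 2 * y} := by
    ext ω
    simp [A]
  rw [h]
  refine (measurableSet_le measurable_const (hBm q).abs).inter ?_
  refine Finset.measurableSet_biInter F fun r _ => ?_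
  by_cases hr : r < q
  · simp only [hr, true_imp_iff]
    exact measurableSet_lt (hBm r).abs measurable_const
  · simp [hr]

theorem half (hBm : ∀ t, Measurable (B t)) (hB : IsPreBrownianReal B P) {T q : ℝ≥0} (hq : q ≤ T)
    {y : ℝ} (hy : 0 < y) (hT : 2 * (T : ℝ) ≤ y ^ 2) :
    (1 / 2 : ℝ≥0∞) ≤ P {ω | |B T ω - B q ω| ≤ y} := by
  have hs := (hB.shift q).hasLaw_eval (T - q)
  rw [add_tsub_cancel_of_le hq] at hs
  have hmean : ∫ ω, (B T ω - B q ω) ∂P = 0 := by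
    rw [hs.integral_eq, integral_id_gaussianReal]
  have hvar : variance (fun ω => B T ω - B q ω) P = ((T - q : ℝ≥0) : ℝ) := by
    rw [hs.variance_eq, variance_id_gaussianReal]
  have h1 := meas_ge_le_variance_div_sq (hs.hasGaussianLaw.memLp_two) hy
  rw [hmean, hvar] at h1
  have hle : ((T - q : ℝ≥0) : ℝ) / y ^ 2 ≤ 1 / 2 := by
    rw [div_le_iff₀ (by positivity)]
    have : ((T - q : ℝ≥0) : ℝ) ≤ T := by exact_mod_cast tsub_le_self
    linarith
  have h2 : P {ω | |B T ω - B q ω| ≤ y}ᶜ ≤ 1 / 2 := by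
    refine (measure_mono ?_).trans (h1.trans ?_)
    · intro ω hω
      simp only [mem_compl_iff, mem_ofPred_eq, not_le] at hω
      simp only [mem_ofPred_eq, sub_zero]
      exact hω.le
    · refine (ENNReal.ofReal_le_ofReal hle).trans (le_of_eq ?_)
      rw [ENNReal.ofReal_div_of_pos (by norm_num)]
      simp
  have hm : MeasurableSet {ω | |B T ω - B q ω| ≤ y} :=
    measurableSet_le ((hBm T).sub (hBm q)).abs measurable_const
  have h3 := prob_add_prob_compl (μ := P) hm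
  by_contra hcon
  push Not at hcon
  have h4 : P {ω | |B T ω - B q ω| ≤ y} + P {ω | |B T ω - B q ω| ≤ y}ᶜ < 1 / 2 + 1 / 2 :=
    ENNReal.add_lt_add_of_lt_of_le (ne_top_of_le_ne_top (by simp) h2) hcon h2
  rw [h3, ENNReal.add_halves] at h4
  exact lt_irrefl _ h4

theorem step (hBm : ∀ t, Measurable (B t)) (hB : IsPreBrownianReal B P) {T q : ℝ≥0} (hq : q ≤ T)
    {y : ℝ} (hy : 0 < y) (hT : 2 * (T : ℝ) ≤ y ^ 2) (F : Finset ℝ≥0) :
    P (A B F y q) ≤ 2 * P (A B F y q ∩ {ω | y ≤ |B T ω|}) := by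
  have hind := hB.indepFun_shift q
  have hSm : MeasurableSet {f : Iic q → ℝ | 2 * y ≤ |f ⟨q, mem_Iic.2 le_rfl⟩| ∧
      ∀ r : Iic q, (r : ℝ≥0) ∈ F → (r : ℝ≥0) < q → |f r| < 2 * y} := by
    have h : {f : Iic q → ℝ | 2 * y ≤ |f ⟨q, mem_Iic.2 le_rfl⟩| ∧
      ∀ r : Iic q, (r : ℝ≥0) ∈ F → (r : ℝ≥0) < q → |f r| < 2 * y} =
      {f : Iic q → ℝ | 2 * y ≤ |f ⟨q, mem_Iic.2 le_rfl⟩|} ∩
        ⋂ r ∈ {r : Iic q | (r : ℝ≥0) ∈ F}, {f : Iic q → ℝ | (r : ℝ≥0) < q → |f r| < 2 * y} := by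
      ext f
      simp
    rw [h]
    refine (measurableSet_le measurable_const (measurable_pi_apply _).abs).inter ?_
    have hfin : {r : Iic q | (r : ℝ≥0) ∈ F}.Finite :=
      F.finite_toSet.preimage Subtype.val_injective.injOn
    refine MeasurableSet.biInter hfin.countable fun r _ => ?_
    by_cases hr : (r : ℝ≥0) < q
    · simp only [hr, true_imp_iff]
      exact measurableSet_lt (measurable_pi_apply _).abs measurable_const
    · simp [hr]
  have hDm : MeasurableSet {f : ℝ≥0 → ℝ | |f (T - q)| ≤ y} :=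
    measurableSet_le (measurable_pi_apply _).abs measurable_const
  have h1 := hind.measure_inter_preimage_eq_mul _ _ hDm hSm
  have e1 : (fun ω t => B (q + t) ω - B q ω) ⁻¹' {f : ℝ≥0 → ℝ | |f (T - q)| ≤ y} =
      {ω | |B T ω - B q ω| ≤ y} := by
    ext ω
    simp only [mem_preimage, mem_ofPred_eq]
    rw [add_tsub_cancel_of_le hq]
  have e2 : (fun ω (t : Iic q) => B t ω) ⁻¹' {f : Iic q → ℝ | 2 * y ≤ |f ⟨q, mem_Iic.2 le_rfl⟩| ∧
      ∀ r : Iic q, (r : ℝ≥0) ∈ F → (r : ℝ≥0) < q → |f r| < 2 * y} = A B F y q := by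
    ext ω
    simp only [mem_preimage, mem_ofPred_eq, A]
    constructor
    · rintro ⟨h, h'⟩
      exact ⟨h, fun r hr hrq => h' ⟨r, hrq.le⟩ hr hrq⟩
    · rintro ⟨h, h'⟩
      exact ⟨h, fun r hr hrq => h' r hr hrq⟩
  rw [e1, e2] at h1
  have h2 : {ω | |B T ω - B q ω| ≤ y} ∩ A B F y q ⊆ A B F y q ∩ {ω | y ≤ |B T ω|} := by
    rintro ω ⟨hω, hω'⟩
    refine ⟨hω', ?_⟩
    have h3 := hω'.1
    simp only [mem_ofPred_eq] at hω ⊢
    have h4 := abs_sub_abs_le_abs_sub (B q ω) (B T ω)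
    rw [abs_sub_comm (B q ω) (B T ω)] at h4
    linarith
  have h3 : (1 / 2 : ℝ≥0∞) * P (A B F y q) ≤ P (A B F y q ∩ {ω | y ≤ |B T ω|}) := by
    calc (1 / 2 : ℝ≥0∞) * P (A B F y q) ≤ P {ω | |B T ω - B q ω| ≤ y} * P (A B F y q) :=
          mul_le_mul_left (half hBm hB hq hy hT) _
      _ = _ := h1.symm
      _ ≤ _ := measure_mono h2
  calc P (A B F y q) = 2 * ((1 / 2 : ℝ≥0∞) * P (A B F y q)) := by
        rw [← mul_assoc, one_div, ENNReal.mul_inv_cancel (by norm_num) (by norm_num), one_mul]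
    _ ≤ _ := by gcongr

theorem fin (hBm : ∀ t, Measurable (B t)) (hB : IsPreBrownianReal B P) {T : ℝ≥0}
    {y : ℝ} (hy : 0 < y) (hT : 2 * (T : ℝ) ≤ y ^ 2) (F : Finset ℝ≥0) (hF : ∀ q ∈ F, q ≤ T) :
    P {ω | ∃ q ∈ F, 2 * y ≤ |B q ω|} ≤ 2 * P {ω | y ≤ |B T ω|} := by
  classical
  have h1 : {ω | ∃ q ∈ F, 2 * y ≤ |B q ω|} ⊆ ⋃ q ∈ F, A B F y q := by
    rintro ω ⟨q, hq, hω⟩
    have hne : (F.filter fun r => 2 * y ≤ |B r ω|).Nonempty := ⟨q, Finset.mem_filter.2 ⟨hq, hω⟩⟩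
    have hm := Finset.min'_mem _ hne
    rw [Finset.mem_filter] at hm
    simp only [mem_iUnion]
    refine ⟨_, hm.1, hm.2, fun r hr hlt => ?_⟩
    by_contra hcon
    push Not at hcon
    exact absurd (Finset.min'_le _ r (Finset.mem_filter.2 ⟨hr, hcon⟩)) (not_le.2 hlt)
  have hdisj : (↑F : Set ℝ≥0).PairwiseDisjoint
      (fun q => A B F y q ∩ {ω | y ≤ |B T ω|}) := by
    intro q hq r hr hqr
    rw [Function.onFun, Set.disjoint_left]
    rintro ω ⟨hω, _⟩ ⟨hω', _⟩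
    rcases lt_or_gt_of_ne hqr with h | h
    · exact absurd hω.1 (not_le.2 (hω'.2 q hq h))
    · exact absurd hω'.1 (not_le.2 (hω.2 r hr h))
  have hE : MeasurableSet {ω | y ≤ |B T ω|} := measurableSet_le measurable_const (hBm T).abs
  calc P {ω | ∃ q ∈ F, 2 * y ≤ |B q ω|} ≤ P (⋃ q ∈ F, A B F y q) := measure_mono h1
    _ ≤ ∑ q ∈ F, P (A B F y q) := measure_biUnion_finset_le _ _
    _ ≤ ∑ q ∈ F, 2 * P (A B F y q ∩ {ω | y ≤ |B T ω|}) :=
        Finset.sum_le_sum fun q hq => step hBm hB (hF q hq) hy hT F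
    _ = 2 * ∑ q ∈ F, P (A B F y q ∩ {ω | y ≤ |B T ω|}) := by rw [Finset.mul_sum]
    _ = 2 * P (⋃ q ∈ F, (A B F y q ∩ {ω | y ≤ |B T ω|})) := by
        rw [measure_biUnion_finset hdisj fun q _ => (meas_A hBm F y q).inter hE]
    _ ≤ 2 * P {ω | y ≤ |B T ω|} := by
        gcongr
        exact iUnion₂_subset fun q _ => inter_subset_right

end BMax

open BMax in
theorem bmax : S_bmax := by
  classical
  intro Ω _ P _ B hBm hB T y hy hT
  have hU : {ω | ∃ q : ℚ≥0, (q : ℝ≥0) ≤ T ∧ 2 * y ≤ |B q ω|} =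
      ⋃ F : Finset ℚ≥0, {ω | ∃ q ∈ F, (q : ℝ≥0) ≤ T ∧ 2 * y ≤ |B q ω|} := by
    ext ω
    simp only [mem_ofPred_eq, mem_iUnion]
    constructor
    · rintro ⟨q, hq⟩
      exact ⟨{q}, q, Finset.mem_singleton_self q, hq⟩
    · rintro ⟨F, q, _, hq⟩
      exact ⟨q, hq⟩
  have hdir : Directed (· ⊆ ·) fun F : Finset ℚ≥0 =>
      {ω | ∃ q ∈ F, (q : ℝ≥0) ≤ T ∧ 2 * y ≤ |B q ω|} := by
    intro F G
    refine ⟨F ∪ G, ?_, ?_⟩
    · rintro ω ⟨q, hq, h⟩
      exact ⟨q, Finset.mem_union_left _ hq, h⟩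
    · rintro ω ⟨q, hq, h⟩
      exact ⟨q, Finset.mem_union_right _ hq, h⟩
  rw [hU, hdir.measure_iUnion]
  refine iSup_le fun F => ?_
  have h1 := fin hBm hB hy hT ((F.image (fun q : ℚ≥0 => (q : ℝ≥0))).filter (· ≤ T))
    (fun q hq => (Finset.mem_filter.1 hq).2)
  have h2 := tail (hB.hasLaw_eval T) hy
  have h3 : {ω | ∃ q ∈ F, (q : ℝ≥0) ≤ T ∧ 2 * y ≤ |B q ω|} ⊆
      {ω | ∃ q ∈ (F.image (fun q : ℚ≥0 => (q : ℝ≥0))).filter (· ≤ T), 2 * y ≤ |B q ω|} := by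
    rintro ω ⟨q, hq, hqT, h⟩
    exact ⟨q, Finset.mem_filter.2 ⟨Finset.mem_image_of_mem _ hq, hqT⟩, h⟩
  calc _ ≤ _ := measure_mono h3
    _ ≤ _ := h1
    _ ≤ 2 * ENNReal.ofReal (3 * T ^ 2 / y ^ 4) := by gcongr
    _ = ENNReal.ofReal (6 * T ^ 2 / y ^ 4) := by
        rw [show (2 : ℝ≥0∞) = ENNReal.ofReal 2 by simp, ← ENNReal.ofReal_mul (by norm_num)]
        congr 1
        ring

end Pool.Agent.H949.PM
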